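import Mathlib

/-!
Definitions for problem MP_28691e_co: `2 → 1` hypergraphs, the hypergraph `I₀`, and proper
colourings.
-/

namespace Pool.Agent.Lib.MP_28691e_co

/-- A `2 → 1` hypergraph with vertex set `V` (finite or infinite): a set of hyperedges, each being
a `3`-element set `e` of vertices together with one designated vertex `h ∈ e`, its head. -/
structure TwoOneHypergraph (V : Type*) where
  /-- the hyperedges, as pairs (set of three vertices, head) -/
  edges : Set (Finset V × V)
  /-- a hyperedge has three vertices -/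
  card_eq : ∀ e ∈ edges, e.1.card = 3
  /-- the head is one of them -/
  head_mem : ∀ e ∈ edges, e.2 ∈ e.1

/-- `H` avoids `I₀`: there are no five distinct vertices `a, b, c, d, e` such that `ab → e` and
`cd → e` are hyperedges of `H`. -/
def TwoOneHypergraph.AvoidsI0 {V : Type*} [DecidableEq V] (H : TwoOneHypergraph V) : Prop :=
  ∀ a b c d e : V, [a, b, c, d, e].Nodup →
    ¬ (({a, b, e}, e) ∈ H.edges ∧ ({c, d, e}, e) ∈ H.edges)

/-- `c` is a proper colouring of `H` with `k` colours: no hyperedge is monochromatic. -/
def TwoOneHypergraph.IsProper {V : Type*} (H : TwoOneHypergraph V) {k : ℕ} (c : V → Fin k) :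
    Prop :=
  ∀ e ∈ H.edges, ∃ u ∈ e.1, ∃ v ∈ e.1, c u ≠ c v

end Pool.Agent.Lib.MP_28691e_co
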