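import Pool.Agent.Lib.MP_28691e_co.Kempe

/-!
Every digraph with out-degrees at most three has a colouring with three colours, extending a given
colouring outside a given set `U` of vertices, such that every vertex of `U` has at most half of
its out-neighbours in its own colour.
-/

namespace Pool.Agent.Lib.MP_28691e_co

open Finset

variable {V : Type*} [DecidableEq V]

/-- Adding a vertex that has at most two in-neighbours, or at most two out-neighbours. -/
theorem partit_insert {N : V → Finset V} (hN : ∀ v, v ∉ N v) {B : Finset V} {v : V} (hv : v ∈ B)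
    {f : V → Fin 3} {r : V → ℕ} (hP : Partit N (B.erase v) f r)
    (hdeg : (B.filter (fun u => v ∈ N u)).card < 3 ∨ (B ∩ N v).card < 3) :
    ∃ f' r', Partit N B f' r' := by
  have miss : ∀ s : Finset V, s.card < 3 → ∃ i : Fin 3, ∀ u ∈ s, f u ≠ i := by
    intro s hs
    by_contra hcon
    push Not at hcon
    have : s.image f = univ := by
      rw [eq_univ_iff_forall]
      intro i
      obtain ⟨u, hu, hfu⟩ := hcon i
      exact mem_image.2 ⟨u, hu, hfu⟩
    have h1 : (s.image f).card ≤ s.card := card_image_le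
    rw [this] at h1
    have h2 : (univ : Finset (Fin 3)).card = 3 := rfl
    omega
  rcases hdeg with hd | hd
  · obtain ⟨i, hi⟩ := miss _ hd
    obtain ⟨M, hM⟩ := exists_big B r
    refine ⟨Function.update f v i, Function.update r v M, ?_⟩
    intro w hw u hu huB huw
    have hne : u ≠ w := fun e => hN w (e ▸ hu)
    by_cases hwv : w = v
    · subst hwv
      rw [Function.update_self, Function.update_of_ne hne]
      exact hM u huB
    · by_cases huv : u = v
      · subst huv
        rw [Function.update_self, Function.update_of_ne hwv] at huw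
        exact absurd huw.symm (hi w (mem_filter.2 ⟨hw, hu⟩))
      · rw [Function.update_of_ne huv, Function.update_of_ne hwv] at huw ⊢
        exact hP w (mem_erase.2 ⟨hwv, hw⟩) u hu (mem_erase.2 ⟨huv, huB⟩) huw
  · obtain ⟨i, hi⟩ := miss _ hd
    refine ⟨Function.update f v i, Function.update (fun x => r x + 1) v 0, ?_⟩
    intro w hw u hu huB huw
    have hne : u ≠ w := fun e => hN w (e ▸ hu)
    by_cases hwv : w = v
    · subst hwv
      rw [Function.update_self, Function.update_of_ne hne] at huw
      exact absurd huw (hi u (mem_inter.2 ⟨huB, hu⟩))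
    · by_cases huv : u = v
      · subst huv
        rw [Function.update_self, Function.update_of_ne hwv]
        omega
      · rw [Function.update_of_ne huv, Function.update_of_ne hwv] at huw ⊢
        have := hP w (mem_erase.2 ⟨hwv, hw⟩) u hu (mem_erase.2 ⟨huv, huB⟩) huw
        omega

/-- A set that does not split into three acyclic classes contains a nonempty set `B`, closed under
out-neighbours, that has a good colouring. -/
theorem exists_closed {N : V → Finset V} (hN : ∀ v, v ∉ N v) (hcard : ∀ v, (N v).card ≤ 3)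
    {U : Finset V} (hU : ∀ f r, ¬ Partit N U f r) :
    ∃ B ⊆ U, B.Nonempty ∧ (∀ v ∈ B, N v ⊆ B) ∧ ∃ c : V → Fin 3, ∀ v ∈ B, Sat N c v := by
  classical
  -- a minimal bad subset
  obtain ⟨B, hBU, hBmin⟩ : ∃ B, B ⊆ U ∧ (∀ f r, ¬ Partit N B f r) ∧
      ∀ B', B' ⊂ B → ∃ f r, Partit N B' f r := by
    have : ∃ n, ∃ B, B ⊆ U ∧ (∀ f r, ¬ Partit N B f r) ∧ B.card = n :=
      ⟨_, U, Subset.refl _, hU, rfl⟩
    obtain ⟨B, h1, h2, h3⟩ := Nat.find_spec this
    refine ⟨B, h1, h2, fun B' hB' => ?_⟩
    by_contra hcon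
    push Not at hcon
    have h4 := card_lt_card hB'
    rw [h3] at h4
    exact Nat.find_min this h4 ⟨B', hB'.subset.trans h1, hcon, rfl⟩
  obtain ⟨hBad, hmin⟩ := hBmin
  have hne : B.Nonempty := by
    rw [nonempty_iff_ne_empty]
    rintro rfl
    exact hBad (fun _ => 0) (fun _ => 0) (fun v hv => by simp at hv)
  have hdeg : ∀ v ∈ B, 3 ≤ (B.filter (fun u => v ∈ N u)).card ∧ 3 ≤ (B ∩ N v).card := by
    intro v hv
    obtain ⟨f, r, hP⟩ := hmin (B.erase v) (erase_ssubset hv)
    by_contra hcon
    rw [not_and_or, not_le, not_le] at hcon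
    obtain ⟨f', r', h⟩ := partit_insert hN hv hP hcon
    exact hBad f' r' h
  have hout : ∀ v ∈ B, B ∩ N v = N v ∧ (N v).card = 3 := by
    intro v hv
    have h1 := (hdeg v hv).2
    have h2 := hcard v
    have h3 : (B ∩ N v).card ≤ (N v).card := card_le_card inter_subset_right
    refine ⟨eq_of_subset_of_card_le inter_subset_right (by omega), by omega⟩
  have hsub : ∀ v ∈ B, N v ⊆ B := by
    intro v hv
    rw [← (hout v hv).1]
    exact inter_subset_left
  have hin : ∀ v ∈ B, (B.filter (fun u => v ∈ N u)).card = 3 := by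
    have hsum : ∑ v ∈ B, (B.filter (fun u => v ∈ N u)).card = ∑ v ∈ B, 3 := by
      have h1 : ∑ v ∈ B, (B.filter (fun u => v ∈ N u)).card =
          ∑ u ∈ B, (B.filter (fun v => v ∈ N u)).card := by
        simp only [card_filter]
        exact sum_comm
      rw [h1]
      apply sum_congr rfl
      intro u hu
      rw [filter_mem_eq_inter, (hout u hu).1, (hout u hu).2]
    intro v hv
    by_contra hcon
    have h1 : ∑ v ∈ B, 3 < ∑ v ∈ B, (B.filter (fun u => v ∈ N u)).card := by
      apply sum_lt_sum
      · intro w hw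
        exact (hdeg w hw).1
      · exact ⟨v, hv, lt_of_le_of_ne (hdeg v hv).1 (Ne.symm hcon)⟩
    omega
  refine ⟨B, hBU, hne, hsub, ?_⟩
  by_contra hcol
  push Not at hcol
  have bad : Bad N B := ⟨hN, hsub, fun v hv => (hout v hv).2, hin, hBad, hcol⟩
  obtain ⟨h, hh⟩ := hne
  obtain ⟨f, r, hP⟩ := hmin (B.erase h) (erase_ssubset hh)
  exact bad.false (h := h) (f := f) ⟨hh, r, hP⟩

theorem finite_main {N : V → Finset V} (hN : ∀ v, v ∉ N v) (hcard : ∀ v, (N v).card ≤ 3) :
    ∀ (n : ℕ) (U : Finset V), U.card = n → ∀ c₀ : V → Fin 3,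
      ∃ c : V → Fin 3, (∀ v, v ∉ U → c v = c₀ v) ∧ ∀ v ∈ U, Sat N c v := by
  intro n
  induction n using Nat.strong_induction_on with
  | _ n ih =>
    intro U hU c₀
    by_cases hpart : ∃ f r, Partit N U f r
    · obtain ⟨f, r, hP⟩ := hpart
      obtain ⟨c, h1, h2⟩ := greedy N hN _ U rfl f r hP c₀
      exact ⟨c, h1, fun v hv => (h2 v hv).2⟩
    · push Not at hpart
      obtain ⟨B, hBU, hne, hsub, cB, hcB⟩ := exists_closed hN hcard hpart
      have hlt : (U \ B).card < n := by
        rw [← hU]
        apply card_lt_card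
        rw [ssubset_iff_subset_ne]
        refine ⟨sdiff_subset, fun e => ?_⟩
        obtain ⟨b, hb⟩ := hne
        have := hBU hb
        rw [← e] at this
        exact (mem_sdiff.1 this).2 hb
      obtain ⟨c, h1, h2⟩ := ih _ hlt (U \ B) rfl (fun v => if v ∈ B then cB v else c₀ v)
      have hcB' : ∀ v ∈ B, c v = cB v := by
        intro v hv
        rw [h1 v (fun h => (mem_sdiff.1 h).2 hv)]
        simp [hv]
      refine ⟨c, ?_, ?_⟩
      · intro v hv
        rw [h1 v (fun h => hv (mem_sdiff.1 h).1)]
        have : v ∉ B := fun h => hv (hBU h)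
        simp [this]
      · intro v hv
        by_cases hvB : v ∈ B
        · have := hcB v hvB
          unfold Sat at this ⊢
          convert this using 3
          apply filter_congr
          intro u hu
          rw [hcB' v hvB, hcB' u (hsub v hvB hu)]
        · exact h2 v (mem_sdiff.2 ⟨hv, hvB⟩)

/-- The infinite version, by compactness. -/
theorem infinite_main {N : V → Finset V} (hN : ∀ v, v ∉ N v) (hcard : ∀ v, (N v).card ≤ 3)
    (U : Set V) (c₀ : V → Fin 3) :
    ∃ c : V → Fin 3, (∀ v, v ∉ U → c v = c₀ v) ∧ ∀ v ∈ U, Sat N c v := by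
  classical
  have key : ∀ A : Finset V, ∃ c : V → Fin 3, (∀ v, v ∉ U → c v = c₀ v) ∧
      ∀ v ∈ A, v ∈ U → Sat N c v := by
    intro A
    obtain ⟨c, h1, h2⟩ := finite_main hN hcard _ (A.filter (· ∈ U)) rfl c₀
    refine ⟨c, fun v hv => h1 v (fun h => hv (mem_filter.1 h).2), fun v hv hvU => ?_⟩
    exact h2 v (mem_filter.2 ⟨hv, hvU⟩)
  choose C hC1 hC2 using key
  let F : Ultrafilter (Finset V) := Ultrafilter.of Filter.atTop
  have hF : (F : Filter (Finset V)) ≤ Filter.atTop := Ultrafilter.of_le _
  have hlim : ∀ v, ∃ i : Fin 3, ∀ᶠ A in (F : Filter (Finset V)), C A v = i := by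
    intro v
    by_contra hcon
    rw [not_exists] at hcon
    have h1 : ∀ i : Fin 3, ∀ᶠ A in (F : Filter (Finset V)), C A v ≠ i := fun i =>
      Ultrafilter.eventually_not.2 (fun h => hcon i h)
    have h2 : ∀ᶠ A in (F : Filter (Finset V)), ∀ i : Fin 3, C A v ≠ i :=
      Filter.eventually_all.2 h1
    obtain ⟨A, hA⟩ := h2.exists
    exact hA _ rfl
  choose c hc using hlim
  refine ⟨c, ?_, ?_⟩
  · intro v hv
    obtain ⟨A, hA⟩ := (hc v).exists
    rw [← hA, hC1 A v hv]
  · intro v hv
    have h1 : ∀ᶠ A in (F : Filter (Finset V)), ∀ u ∈ insert v (N v), C A u = c u := by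
      rw [Filter.eventually_all_finset]
      intro u _
      exact hc u
    have h2 : ∀ᶠ A in (F : Filter (Finset V)), v ∈ A := by
      have : ∀ᶠ A in (Filter.atTop : Filter (Finset V)), ({v} : Finset V) ≤ A :=
        Filter.eventually_ge_atTop _
      filter_upwards [hF this] with A hA
      exact hA (mem_singleton_self v)
    obtain ⟨A, hA1, hA2⟩ := (h1.and h2).exists
    have h3 := hC2 A v hA2 hv
    unfold Sat at h3 ⊢
    convert h3 using 3
    apply filter_congr
    intro u hu
    rw [hA1 v (mem_insert_self _ _), hA1 u (mem_insert_of_mem hu)]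

end Pool.Agent.Lib.MP_28691e_co
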