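import Mathlib

/-!
Colourings of a digraph, given by its out-neighbourhoods `N v`, with three colours, such that every
vertex `v` of a finite set has at most half of its out-neighbours in its own colour.
-/

namespace Pool.Agent.Lib.MP_28691e_co

open Finset

variable {V : Type*} [DecidableEq V]

/-- The vertex `v` has at most half of its out-neighbours in its own colour. -/
def Sat (N : V → Finset V) (c : V → Fin 3) (v : V) : Prop :=
  2 * ((N v).filter (fun u => c u = c v)).card ≤ (N v).card

/-- The finite set `U` splits into three acyclic classes (`f` gives the class, `r` a rank). -/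
def Partit (N : V → Finset V) (U : Finset V) (f : V → Fin 3) (r : V → ℕ) : Prop :=
  ∀ v ∈ U, ∀ u ∈ N v, u ∈ U → f u = f v → r u < r v

theorem fin3_cases {i j k : Fin 3} (hij : i ≠ j) (hik : i ≠ k) (hjk : j ≠ k) (x : Fin 3) :
    x = i ∨ x = j ∨ x = k := by
  fin_cases i <;> fin_cases j <;> fin_cases k <;> fin_cases x <;> simp_all

theorem exists_others (i : Fin 3) : ∃ j k : Fin 3, i ≠ j ∧ i ≠ k ∧ j ≠ k := by
  fin_cases i
  · exact ⟨1, 2, by decide, by decide, by decide⟩
  · exact ⟨0, 2, by decide, by decide, by decide⟩
  · exact ⟨0, 1, by decide, by decide, by decide⟩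

/-- The greedy lemma. -/
theorem greedy (N : V → Finset V) (hN : ∀ v, v ∉ N v) :
    ∀ (n : ℕ) (U : Finset V), U.card = n → ∀ (f : V → Fin 3) (r : V → ℕ), Partit N U f r →
      ∀ c₀ : V → Fin 3, ∃ c : V → Fin 3, (∀ v, v ∉ U → c v = c₀ v) ∧
        ∀ v ∈ U, c v ≠ f v ∧ Sat N c v := by
  intro n
  induction n with
  | zero =>
    intro U hU f r _ c₀
    rw [card_eq_zero] at hU
    subst hU
    exact ⟨c₀, fun _ _ => rfl, fun v hv => by simp at hv⟩
  | succ n ih =>
    intro U hU f r hP c₀
    have hne : U.Nonempty := by
      rw [← card_pos, hU]; omega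
    obtain ⟨v, hv, hmin⟩ := exists_min_image U r hne
    obtain ⟨j, k, hj, hk, hjk⟩ := exists_others (f v)
    -- the two possible counts
    set A : Fin 3 → Finset V := fun j => (N v).filter
      (fun u => (u ∉ U ∧ c₀ u = j) ∨ (u ∈ U ∧ f u ≠ j)) with hA
    have hsame : ∀ u ∈ N v, u ∈ U → f u ≠ f v := by
      intro u hu huU h
      have h1 := hP v hv u hu huU h
      have h2 := hmin u huU
      omega
    have hsum : (A j).card + (A k).card ≤ (N v).card := by
      rw [← card_union_of_disjoint]
      · apply card_le_card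
        intro u hu
        rw [mem_union] at hu
        rcases hu with hu | hu <;> exact (mem_filter.1 hu).1
      · rw [disjoint_left]
        intro u hu hu'
        simp only [hA, mem_filter] at hu hu'
        obtain ⟨hu0, hu1⟩ := hu
        obtain ⟨_, hu2⟩ := hu'
        rcases hu1 with ⟨h1, h2⟩ | ⟨h1, h2⟩
        · rcases hu2 with ⟨_, h4⟩ | ⟨h3, _⟩
          · exact hjk (h2.symm.trans h4)
          · exact h1 h3
        · rcases hu2 with ⟨h3, _⟩ | ⟨_, h4⟩
          · exact h3 h1
          · rcases fin3_cases hj hk hjk (f u) with h | h | h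
            · exact hsame u hu0 h1 h
            · exact h2 h
            · exact h4 h
    obtain ⟨i, hi, hAi⟩ : ∃ i, i ≠ f v ∧ 2 * (A i).card ≤ (N v).card := by
      by_cases h : 2 * (A j).card ≤ (N v).card
      · exact ⟨j, hj.symm, h⟩
      · exact ⟨k, hk.symm, by omega⟩
    have hU' : (U.erase v).card = n := by rw [card_erase_of_mem hv, hU]; rfl
    have hP' : Partit N (U.erase v) f r := by
      intro w hw u hu huU h
      exact hP w (mem_of_mem_erase hw) u hu (mem_of_mem_erase huU) h
    obtain ⟨c, hc1, hc2⟩ := ih (U.erase v) hU' f r hP' (Function.update c₀ v i)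
    have hcv : c v = i := by
      rw [hc1 v (notMem_erase _ _), Function.update_self]
    refine ⟨c, ?_, ?_⟩
    · intro w hw
      have hwv : w ≠ v := fun h => hw (h ▸ hv)
      rw [hc1 w (fun h => hw (mem_of_mem_erase h)), Function.update_of_ne hwv]
    · intro w hw
      by_cases hwv : w = v
      · subst hwv
        refine ⟨by rw [hcv]; exact hi, ?_⟩
        unfold Sat
        refine le_trans ?_ hAi
        refine Nat.mul_le_mul_left _ (card_le_card ?_)
        intro u hu
        rw [mem_filter, hcv] at hu
        simp only [hA, mem_filter]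
        refine ⟨hu.1, ?_⟩
        have huw : u ≠ w := fun h => hN w (h ▸ hu.1)
        by_cases huU : u ∈ U
        · right
          refine ⟨huU, fun h => ?_⟩
          exact (hc2 u (mem_erase.2 ⟨huw, huU⟩)).1 (hu.2.trans h.symm)
        · left
          refine ⟨huU, ?_⟩
          rw [← hu.2, hc1 u (fun h => huU (mem_of_mem_erase h)), Function.update_of_ne huw]
      · exact hc2 w (mem_erase.2 ⟨hwv, hw⟩)

end Pool.Agent.Lib.MP_28691e_co
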