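import Pool.Agent.Lib.MP_28691e_co.Regular

/-!
The contradiction in the 3-diregular case.
-/

namespace Pool.Agent.Lib.MP_28691e_co

open Finset

variable {V : Type*} [DecidableEq V] {N : V → Finset V} {B : Finset V}

/-- The vertices of the classes `0` and `1`. -/
def InX (B : Finset V) (h : V) (f : V → Fin 3) (v : V) : Prop :=
  v ∈ B ∧ v ≠ h ∧ (f v = 0 ∨ f v = 1)

/-- A path of length `l` in the classes `0` and `1`. -/
def IsPath (N : V → Finset V) (B : Finset V) (h : V) (f : V → Fin 3) (l : ℕ) (p : ℕ → V) : Prop :=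
  (∀ i ≤ l, InX B h f (p i)) ∧ ∀ i < l, Nbr N (p i) (p (i + 1))

/-- The vertices of class `i` on the directed cycle through the hole. -/
def InT (N : V → Finset V) (B : Finset V) (h : V) (f : V → Fin 3) (i : Fin 3) (v : V) : Prop :=
  v ∈ B ∧ v ≠ h ∧ f v = i ∧ Config N B v (Function.update f h i)

theorem Nbr.symm' {u v : V} (h : Nbr N u v) : Nbr N v u := Or.symm h

/-- Kempe exchange: the out-neighbours of the hole in the classes `0` and `1` are connected. -/
theorem Bad.connected (hB : Bad N B) {h : V} {f : V → Fin 3} (hc : Config N B h f) {x y : V}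
    (hx : x ∈ N h) (hfx : f x = 0) (hy : y ∈ N h) (hfy : f y = 1) :
    Relation.ReflTransGen (fun u v => InX B h f u ∧ InX B h f v ∧ Nbr N u v) x y := by
  classical
  by_contra hcon
  set K : V → Prop := fun v =>
    Relation.ReflTransGen (fun u v => InX B h f u ∧ InX B h f v ∧ Nbr N u v) x v with hK
  have hxB : x ∈ B := hB.sub h hc.1 hx
  have hxh : x ≠ h := fun e => hB.loopless h (e ▸ hx)
  have hxX : InX B h f x := ⟨hxB, hxh, Or.inl hfx⟩
  have hKX : ∀ v, K v → InX B h f v := by
    intro v hv
    rcases Relation.ReflTransGen.cases_tail hv with h1 | ⟨w, _, h2⟩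
    · rw [h1]; exact hxX
    · exact h2.2.1
  have hstep : ∀ u v, K u → InX B h f v → Nbr N u v → K v := by
    intro u v hu hv huv
    exact Relation.ReflTransGen.tail hu ⟨hKX u hu, hv, huv⟩
  set f' : V → Fin 3 := fun v => if K v then (if f v = 0 then 1 else 0) else f v with hf'
  have hc' : Config N B h f' := by
    obtain ⟨hh, r, hr⟩ := hc
    refine ⟨hh, r, ?_⟩
    intro v hv u hu huB huv
    refine hr v hv u hu huB ?_
    rw [mem_erase] at hv huB
    by_cases hKv : K v
    · have h1 := hKX v hKv
      by_cases hKu : K u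
      · have h2 := hKX u hKu
        simp only [hf', hKv, hKu, if_true] at huv
        rcases h1.2.2 with h3 | h3 <;> rcases h2.2.2 with h4 | h4 <;> rw [h3, h4] at huv ⊢ <;>
          simp at huv
      · exfalso
        simp only [hf', hKv, hKu, if_true, if_false] at huv
        apply hKu
        refine hstep v u hKv ⟨huB.2, huB.1, ?_⟩ (Or.inr hu)
        by_cases h3 : f v = 0
        · rw [if_pos h3] at huv; exact Or.inr huv
        · rw [if_neg h3] at huv; exact Or.inl huv
    · by_cases hKu : K u
      · exfalso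
        have h2 := hKX u hKu
        simp only [hf', hKv, hKu, if_true, if_false] at huv
        apply hKv
        refine hstep u v hKu ⟨hv.2, hv.1, ?_⟩ (Or.inl hu)
        by_cases h3 : f u = 0
        · rw [if_pos h3] at huv; exact Or.inr huv.symm
        · rw [if_neg h3] at huv; exact Or.inl huv.symm
      · simp only [hf', hKv, hKu, if_false] at huv
        exact huv
  have h1 : f' x = 1 := by
    have : K x := Relation.ReflTransGen.refl
    simp only [hf', this, if_true, hfx]
  have h2 : f' y = 1 := by
    have : ¬ K y := hcon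
    simp only [hf', this, if_false, hfy]
  have := hB.P1 hc' hx hy (h1.trans h2.symm)
  rw [this, hfy] at hfx
  exact absurd hfx (by decide)

theorem exists_path {h : V} {f : V → Fin 3} {x y : V} (hx : InX B h f x)
    (hxy : Relation.ReflTransGen (fun u v => InX B h f u ∧ InX B h f v ∧ Nbr N u v) x y) :
    ∃ l p, IsPath N B h f l p ∧ p 0 = x ∧ p l = y := by
  induction hxy with
  | refl => exact ⟨0, fun _ => x, ⟨fun _ _ => hx, fun i hi => by omega⟩, rfl, rfl⟩
  | @tail y z _ hyz ih =>
    obtain ⟨l, p, ⟨hp1, hp2⟩, h0, hl⟩ := ih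
    refine ⟨l + 1, fun i => if i ≤ l then p i else z, ⟨?_, ?_⟩, by simp [h0], by simp⟩
    · intro i _
      by_cases hil : i ≤ l
      · simp only [hil, if_true]; exact hp1 i hil
      · simp only [hil, if_false]; exact hyz.2.1
    · intro i hi
      by_cases hil : i < l
      · have h1 : i ≤ l := by omega
        have h2 : i + 1 ≤ l := by omega
        simp only [h1, h2, if_true]
        exact hp2 i hil
      · have h1 : i = l := by omega
        subst h1
        simp only [le_refl, if_true, show ¬ (i + 1 ≤ i) by omega, if_false, hl]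
        exact hyz.2.2

/-- The neighbours of a cycle vertex in the class of the cycle (or the hole) are on the cycle. -/
theorem Bad.closed (hB : Bad N B) {h : V} {f : V → Fin 3} {i : Fin 3} {v u : V}
    (hv : InT N B h f i v) (huB : u ∈ B) (huv : Nbr N v u) (hu : u ≠ h) (hfu : f u = i) :
    InT N B h f i u := by
  obtain ⟨hvB, hvh, hfv, hcv⟩ := hv
  refine ⟨huB, hu, hfu, ?_⟩
  have := hB.S hcv huB huv
  rw [Function.update_of_ne hu, hfu] at this
  have e : Function.update (Function.update f h i) v i = Function.update f h i := by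
    have h1 : Function.update f h i v = i := by rw [Function.update_of_ne hvh, hfv]
    rw [Function.update_eq_self_iff, h1]
  rw [e] at this
  exact this

theorem Bad.false (hB : Bad N B) {h : V} {f : V → Fin 3} (hc : Config N B h f) : False := by
  classical
  -- the neighbours of the hole in the classes 0 and 1
  obtain ⟨xa, hxa, hfxa⟩ := hB.P1exists hc 0
  obtain ⟨xb, hxb, hfxb⟩ := hB.P1exists hc 1
  obtain ⟨ya, hyaB, hya, hfya⟩ := hB.P2exists hc 0
  have hxaB := hB.sub h hc.1 hxa
  have hxbB := hB.sub h hc.1 hxb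
  have ne_of_mem : ∀ {u v : V}, u ∈ N v → u ≠ v := fun {u v} hu e => hB.loopless v (e ▸ hu)
  have hTxa : InT N B h f 0 xa := by
    refine ⟨hxaB, ne_of_mem hxa, hfxa, ?_⟩
    have := hB.S1 hc hxa
    rwa [hfxa] at this
  have hTxb : InT N B h f 1 xb := by
    refine ⟨hxbB, ne_of_mem hxb, hfxb, ?_⟩
    have := hB.S1 hc hxb
    rwa [hfxb] at this
  have hTya : InT N B h f 0 ya := by
    refine ⟨hyaB, (ne_of_mem hya).symm, hfya, ?_⟩
    have := hB.S2 hc hyaB hya
    rwa [hfya] at this
  have hex : ∃ l, ∃ p, IsPath N B h f l p ∧ InT N B h f 0 (p 0) ∧ InT N B h f 1 (p l) := by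
    obtain ⟨l, p, hp, h0, hl⟩ := exists_path (N := N)
      (show InX B h f xa from ⟨hxaB, ne_of_mem hxa, Or.inl hfxa⟩)
      (hB.connected hc hxa hfxa hxb hfxb)
    exact ⟨l, p, hp, by rw [h0]; exact hTxa, by rw [hl]; exact hTxb⟩
  obtain ⟨p, ⟨hpX, hpN⟩, hp0, hpl⟩ := Nat.find_spec hex
  have hmin := fun m (hm : m < Nat.find hex) => Nat.find_min hex hm
  set l := Nat.find hex with hl
  -- minimality
  have M1 : ∀ i, 1 ≤ i → i ≤ l → ¬ InT N B h f 0 (p i) := by
    intro i hi hil hT
    refine hmin (l - i) (by omega) ⟨fun t => p (i + t), ⟨?_, ?_⟩, by simpa using hT, ?_⟩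
    · intro t ht; exact hpX _ (by omega)
    · intro t ht; exact hpN (i + t) (by omega)
    · show InT N B h f 1 (p (i + (l - i)))
      rw [show i + (l - i) = l by omega]; exact hpl
  have M2 : ∀ i < l, ¬ InT N B h f 1 (p i) := by
    intro i hil hT
    exact hmin i hil ⟨p, ⟨fun t ht => hpX t (by omega), fun t ht => hpN t (by omega)⟩, hp0, hT⟩
  have M3 : ∀ i, i + 1 < l → ∀ w, InT N B h f 1 w → ¬ Nbr N (p i) w := by
    intro i hil w hw hnb
    refine hmin (i + 1) hil ⟨fun t => if t ≤ i then p t else w, ⟨?_, ?_⟩, by simpa using hp0, ?_⟩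
    · intro t _
      by_cases hti : t ≤ i
      · simp only [hti, if_true]; exact hpX t (by omega)
      · simp only [hti, if_false]; exact ⟨hw.1, hw.2.1, Or.inr hw.2.2.1⟩
    · intro t ht
      by_cases hti : t < i
      · have h1 : t ≤ i := by omega
        have h2 : t + 1 ≤ i := by omega
        simp only [h1, h2, if_true]; exact hpN t (by omega)
      · have h1 : t = i := by omega
        subst h1
        simp only [le_refl, if_true, show ¬ (t + 1 ≤ t) by omega, if_false]; exact hnb
    · show InT N B h f 1 (if i + 1 ≤ i then p (i + 1) else w)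
      rw [if_neg (by omega)]; exact hw
  have hl1 : 1 ≤ l := by
    by_contra hcon
    have h0 : l = 0 := by omega
    rw [h0] at hpl
    have h1 := hp0.2.2.1
    rw [hpl.2.2.1] at h1
    exact absurd h1 (by decide)
  have hph : ∀ i ≤ l, p i ≠ h := fun i hi => (hpX i hi).2.1
  -- the moving hole
  let F : ℕ → V → Fin 3 := fun j => Nat.rec (Function.update f h 0)
    (fun j g => Function.update g (p j) (g (p (j + 1)))) j
  have hF0 : F 0 = Function.update f h 0 := rfl
  have hFs : ∀ j, F (j + 1) = Function.update (F j) (p j) (F j (p (j + 1))) := fun j => rfl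
  have hconf : ∀ j, j < l → Config N B (p j) (F j) := by
    intro j
    induction j with
    | zero => intro _; exact hp0.2.2.2
    | succ j ih =>
      intro hj
      rw [hFs]
      exact hB.S (ih (by omega)) (hpX (j + 1) (by omega)).1 (hpN j (by omega))
  have hFh : ∀ j, j ≤ l → F j h = 0 := by
    intro j
    induction j with
    | zero => intro _; rw [hF0, Function.update_self]
    | succ j ih =>
      intro hj
      rw [hFs, Function.update_of_ne (hph j (by omega)).symm]
      exact ih (by omega)
  have hFf : ∀ j v, v ≠ h → (∀ i < j, p i ≠ v) → F j v = f v := by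
    intro j
    induction j with
    | zero => intro v hv _; rw [hF0, Function.update_of_ne hv]
    | succ j ih =>
      intro v hv hi
      rw [hFs, Function.update_of_ne (hi j (by omega)).symm]
      exact ih v hv (fun i hij => hi i (by omega))
  -- the last hole
  obtain ⟨m, hm⟩ : ∃ m, l = m + 1 := ⟨l - 1, by omega⟩
  set g := F m with hg
  set q := p m with hq
  set w := p l with hw
  have hqT : ¬ InT N B h f 1 q := M2 m (by omega)
  have hcq : Config N B q g := hconf m (by omega)
  have hqw : Nbr N q w := by rw [hw, hm]; exact hpN m (by omega)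
  have hgh : g h = 0 := hFh m (by omega)
  have hqh : q ≠ h := hph m (by omega)
  have hgT : ∀ v, InT N B h f 1 v → g v = 1 := by
    intro v hv
    rw [hg, hFf m v hv.2.1, hv.2.2.1]
    intro i hi e
    exact M2 i (by omega) (e ▸ hv)
  set G := Function.update g q 1 with hG
  have hGh : G h = 0 := by rw [hG, Function.update_of_ne hqh.symm, hgh]
  have hGT : ∀ v, InT N B h f 1 v → G v = 1 := by
    intro v hv
    have : v ≠ q := fun e => hqT (e ▸ hv)
    rw [hG, Function.update_of_ne this, hgT v hv]
  have hwI : Config N B w G := by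
    have := hB.S hcq hpl.1 hqw
    rwa [hgT w hpl] at this
  -- the class-1 neighbours of the cycle
  have hI : ∀ v, InT N B h f 1 v → Config N B v G → ∀ u ∈ B, Nbr N v u → u ≠ h → f u = 1 →
      InT N B h f 1 u ∧ Config N B u G := by
    intro v hv hcv u hu hvu huh hfu
    have hTu := hB.closed hv hu hvu huh hfu
    refine ⟨hTu, ?_⟩
    have h1 := hB.S hcv hu hvu
    rw [hGT u hTu] at h1
    have e : Function.update G v 1 = G := by
      rw [Function.update_eq_self_iff, hGT v hv]
    rwa [e] at h1
  obtain ⟨_, r, hr⟩ := id hc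
  -- the minimal vertex of the cycle is the in-neighbour of the hole
  set I := B.filter (fun v => InT N B h f 1 v ∧ Config N B v G) with hIdef
  have hIne : I.Nonempty := ⟨w, mem_filter.2 ⟨hpl.1, hpl, hwI⟩⟩
  -- the final step for a vertex of the cycle which is a neighbour of the hole
  have hxap : xa = p 0 := by
    obtain ⟨v, hvI, hvmax⟩ := exists_max_image I r hIne
    obtain ⟨hvB, hvT, hvG⟩ := mem_filter.1 hvI
    -- the in-neighbour of v in class 1
    obtain ⟨u, huB, huv, hfu⟩ := hB.P2exists hvT.2.2.2 1
    have huh : u = h := by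
      by_contra huh
      rw [Function.update_of_ne huh] at hfu
      obtain ⟨h1, h2⟩ := hI v hvT hvG u huB (Or.inl huv) huh hfu
      have h3 := hvmax u (mem_filter.2 ⟨huB, h1, h2⟩)
      have h4 := hr u (mem_erase.2 ⟨huh, huB⟩) v huv (mem_erase.2 ⟨hvT.2.1, hvB⟩)
        (by rw [hfu, hvT.2.2.1])
      omega
    subst huh
    -- now v ∈ N h
    have h1 := hB.S2 hvG hc.1 huv
    rw [hGh] at h1
    by_contra hne
    have hxaG : G xa = 0 := by
      have hxi : ∀ i ≤ m, p i ≠ xa := by
        intro i hi e
        rcases Nat.eq_zero_or_pos i with h0 | h0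
        · subst h0; exact hne e.symm
        · exact M1 i h0 (by omega) (e ▸ hTxa)
      rw [hG, Function.update_of_ne (fun e => hxi m le_rfl e.symm), hg,
        hFf m xa hTxa.2.1 (fun i hi => hxi i (by omega)), hfxa]
    have hxav : xa ≠ v := by
      rintro rfl
      rw [hvT.2.2.1] at hfxa
      exact absurd hfxa (by decide)
    have h2 := hB.P1 h1 hxa huv (by
      rw [Function.update_self, Function.update_of_ne hxav, hxaG])
    exact hxav h2
  have hyap : ya = p 0 := by
    obtain ⟨v, hvI, hvmin⟩ := exists_min_image I r hIne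
    obtain ⟨hvB, hvT, hvG⟩ := mem_filter.1 hvI
    obtain ⟨u, huv, hfu⟩ := hB.P1exists hvT.2.2.2 1
    have huB : u ∈ B := hB.sub v hvB huv
    have huh : u = h := by
      by_contra huh
      rw [Function.update_of_ne huh] at hfu
      obtain ⟨h1, h2⟩ := hI v hvT hvG u huB (Or.inr huv) huh hfu
      have h3 := hvmin u (mem_filter.2 ⟨huB, h1, h2⟩)
      have h4 := hr v (mem_erase.2 ⟨hvT.2.1, hvB⟩) u huv (mem_erase.2 ⟨huh, huB⟩)
        (by rw [hfu, hvT.2.2.1])
      omega
    subst huh
    have h1 := hB.S1 hvG huv
    rw [hGh] at h1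
    by_contra hne
    have hyaG : G ya = 0 := by
      have hyi : ∀ i ≤ m, p i ≠ ya := by
        intro i hi e
        rcases Nat.eq_zero_or_pos i with h0 | h0
        · subst h0; exact hne e.symm
        · exact M1 i h0 (by omega) (e ▸ hTya)
      rw [hG, Function.update_of_ne (fun e => hyi m le_rfl e.symm), hg,
        hFf m ya hTya.2.1 (fun i hi => hyi i (by omega)), hfya]
    have hyav : ya ≠ v := by
      rintro rfl
      rw [hvT.2.2.1] at hfya
      exact absurd hfya (by decide)
    have h2 := hB.P2 h1 hyaB hya hvB huv (by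
      rw [Function.update_self, Function.update_of_ne hyav, hyaG])
    exact hyav h2
  rw [hyap, ← hxap] at hya
  exact hB.P3 hc hxa hya

end Pool.Agent.Lib.MP_28691e_co
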