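import Pool.Agent.Lib.MP_28691e_co.Defs
import Pool.Agent.Lib.MP_28691e_co.Finite

/-!
Proper colourings with three colours of the `2 → 1` hypergraphs avoiding `I₀`.
-/

namespace Pool.Agent.Lib.MP_28691e_co

open Finset

variable {V : Type*} [DecidableEq V]

theorem tails_meet (H : TwoOneHypergraph V) (hH : H.AvoidsI0) {v : V} {e e' : Finset V}
    (he : (e, v) ∈ H.edges) (he' : (e', v) ∈ H.edges) :
    ∃ u, u ∈ e.erase v ∧ u ∈ e'.erase v := by
  by_contra hcon
  push Not at hcon
  have hv := H.head_mem _ he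
  have hv' := H.head_mem _ he'
  simp only at hv hv'
  have h1 : (e.erase v).card = 2 := by
    rw [card_erase_of_mem hv, H.card_eq _ he]
  have h2 : (e'.erase v).card = 2 := by
    rw [card_erase_of_mem hv', H.card_eq _ he']
  obtain ⟨a, b, hab, h3⟩ := card_eq_two.1 h1
  obtain ⟨c, d, hcd, h4⟩ := card_eq_two.1 h2
  have ha : a ∈ e.erase v := by rw [h3]; simp
  have hb : b ∈ e.erase v := by rw [h3]; simp
  have hc : c ∈ e'.erase v := by rw [h4]; simp
  have hd : d ∈ e'.erase v := by rw [h4]; simp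
  have hav : a ≠ v := (mem_erase.1 ha).1
  have hbv : b ≠ v := (mem_erase.1 hb).1
  have hcv : c ≠ v := (mem_erase.1 hc).1
  have hdv : d ≠ v := (mem_erase.1 hd).1
  have hac : a ≠ c := fun h => hcon a ha (h ▸ hc)
  have had : a ≠ d := fun h => hcon a ha (h ▸ hd)
  have hbc : b ≠ c := fun h => hcon b hb (h ▸ hc)
  have hbd : b ≠ d := fun h => hcon b hb (h ▸ hd)
  have he1 : e = {a, b, v} := by
    rw [← insert_erase hv, h3]
    ext x; simp; tauto
  have he2 : e' = {c, d, v} := by
    rw [← insert_erase hv', h4]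
    ext x; simp; tauto
  refine hH a b c d v ?_ ⟨he1 ▸ he, he2 ▸ he'⟩
  simp [hab, hcd, hav, hbv, hcv, hdv, hac, had, hbc, hbd]

/-- The out-neighbourhood of a vertex: the centre of the star, or the vertices of the triangle,
formed by the tails of the hyperedges with head `v`. -/
theorem exists_nbhd (H : TwoOneHypergraph V) (hH : H.AvoidsI0) (v : V) :
    ∃ M : Finset V, v ∉ M ∧ M.card ≤ 3 ∧
      ∀ e, (e, v) ∈ H.edges → M.card < 2 * ((e.erase v) ∩ M).card := by
  classical
  by_cases hhead : ∃ e, (e, v) ∈ H.edges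
  swap
  · push Not at hhead
    exact ⟨∅, by simp, by simp, fun e he => absurd he (hhead e)⟩
  obtain ⟨e₀, he₀⟩ := hhead
  have hcard : ∀ e, (e, v) ∈ H.edges → (e.erase v).card = 2 := by
    intro e he
    have := H.head_mem _ he
    simp only at this
    rw [card_erase_of_mem this, H.card_eq _ he]
  obtain ⟨a, b, hab, h₀⟩ := card_eq_two.1 (hcard e₀ he₀)
  have star : ∀ a : V, a ≠ v → (∀ e, (e, v) ∈ H.edges → a ∈ e.erase v) →
      ∃ M : Finset V, v ∉ M ∧ M.card ≤ 3 ∧
        ∀ e, (e, v) ∈ H.edges → M.card < 2 * ((e.erase v) ∩ M).card := by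
    intro a hav hall
    refine ⟨{a}, by simpa using hav.symm, by simp, fun e he => ?_⟩
    have : (e.erase v) ∩ {a} = {a} := by
      rw [inter_singleton_of_mem (hall e he)]
    rw [this]; simp
  have ha0 : a ∈ e₀.erase v := by rw [h₀]; simp
  have hb0 : b ∈ e₀.erase v := by rw [h₀]; simp
  by_cases hA : ∀ e, (e, v) ∈ H.edges → a ∈ e.erase v
  · exact star a (mem_erase.1 ha0).1 hA
  by_cases hB : ∀ e, (e, v) ∈ H.edges → b ∈ e.erase v
  · exact star b (mem_erase.1 hb0).1 hB
  push Not at hA hB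
  obtain ⟨e₁, he₁, ha1⟩ := hA
  obtain ⟨e₂, he₂, hb2⟩ := hB
  have hb1 : b ∈ e₁.erase v := by
    obtain ⟨u, hu, hu'⟩ := tails_meet H hH he₀ he₁
    rw [h₀] at hu
    rcases mem_insert.1 hu with rfl | hu
    · exact absurd hu' ha1
    · rw [mem_singleton] at hu; rwa [← hu]
  have ha2 : a ∈ e₂.erase v := by
    obtain ⟨u, hu, hu'⟩ := tails_meet H hH he₀ he₂
    rw [h₀] at hu
    rcases mem_insert.1 hu with rfl | hu
    · exact hu'
    · rw [mem_singleton] at hu
      rw [hu] at hu'; exact absurd hu' hb2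
  obtain ⟨c, hc1, hc2⟩ := tails_meet H hH he₁ he₂
  have hca : c ≠ a := fun h => ha1 (h ▸ hc1)
  have hcb : c ≠ b := fun h => hb2 (h ▸ hc2)
  have e1 : e₁.erase v = {b, c} := by
    symm
    apply eq_of_subset_of_card_le
    · intro x hx
      rcases mem_insert.1 hx with rfl | hx
      · exact hb1
      · rw [mem_singleton] at hx; rw [hx]; exact hc1
    · rw [hcard e₁ he₁, card_pair hcb.symm]
  have e2 : e₂.erase v = {a, c} := by
    symm
    apply eq_of_subset_of_card_le
    · intro x hx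
      rcases mem_insert.1 hx with rfl | hx
      · exact ha2
      · rw [mem_singleton] at hx; rw [hx]; exact hc2
    · rw [hcard e₂ he₂, card_pair hca.symm]
  refine ⟨{a, b, c}, ?_, ?_, ?_⟩
  · simp only [mem_insert, mem_singleton, not_or]
    exact ⟨(mem_erase.1 ha0).1.symm, (mem_erase.1 hb0).1.symm, (mem_erase.1 hc1).1.symm⟩
  · exact card_le_three
  · intro e he
    have hM : ({a, b, c} : Finset V).card = 3 := by
      rw [card_eq_three]; exact ⟨a, b, c, hab, hca.symm, hcb.symm, rfl⟩
    rw [hM]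
    -- the tail meets each of the three pairs
    have m0 := tails_meet H hH he he₀
    have m1 := tails_meet H hH he he₁
    have m2 := tails_meet H hH he he₂
    rw [h₀] at m0
    rw [e1] at m1
    rw [e2] at m2
    simp only [mem_insert, mem_singleton] at m0 m1 m2
    have two : ∀ x y : V, x ≠ y → x ∈ e.erase v → y ∈ e.erase v →
        x ∈ ({a, b, c} : Finset V) → y ∈ ({a, b, c} : Finset V) →
        3 < 2 * ((e.erase v) ∩ {a, b, c}).card := by
      intro x y hxy hx hy hx' hy'
      have : ({x, y} : Finset V) ⊆ (e.erase v) ∩ {a, b, c} := by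
        intro z hz
        rcases mem_insert.1 hz with rfl | hz
        · exact mem_inter.2 ⟨hx, hx'⟩
        · rw [mem_singleton] at hz; rw [hz]; exact mem_inter.2 ⟨hy, hy'⟩
      have h3 := card_le_card this
      rw [card_pair hxy] at h3
      omega
    obtain ⟨x0, hx0, hx0'⟩ := m0
    obtain ⟨x1, hx1, hx1'⟩ := m1
    obtain ⟨x2, hx2, hx2'⟩ := m2
    rcases hx0' with rfl | rfl
    · rcases hx1' with rfl | rfl
      · exact two _ _ hab hx0 hx1 (by simp) (by simp)
      · exact two _ _ hca.symm hx0 hx1 (by simp) (by simp)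
    · rcases hx2' with rfl | rfl
      · exact two _ _ hab.symm hx0 hx2 (by simp) (by simp)
      · exact two _ _ hcb.symm hx0 hx2 (by simp) (by simp)

theorem main (H : TwoOneHypergraph V) (hH : H.AvoidsI0) (c₀ : V → Fin 3) :
    ∃ c : V → Fin 3, H.IsProper c ∧ ∀ v, (∀ e ∈ H.edges, e.2 ≠ v) → c v = c₀ v := by
  classical
  choose N hN hcard hmeet using exists_nbhd H hH
  obtain ⟨c, h1, h2⟩ := infinite_main hN hcard {v | ∃ e ∈ H.edges, e.2 = v} c₀
  refine ⟨c, ?_, ?_⟩
  · rintro ⟨e, v⟩ he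
    have hsat := h2 v ⟨_, he, rfl⟩
    unfold Sat at hsat
    have hlt := hmeet v e he
    obtain ⟨u, hu, hu'⟩ : ∃ u ∈ (e.erase v) ∩ N v, c u ≠ c v := by
      by_contra hcon
      push Not at hcon
      have : (e.erase v) ∩ N v ⊆ (N v).filter (fun u => c u = c v) := by
        intro u hu
        exact mem_filter.2 ⟨(mem_inter.1 hu).2, hcon u hu⟩
      have := card_le_card this
      omega
    exact ⟨u, mem_of_mem_erase (mem_inter.1 hu).1, v, H.head_mem _ he, hu'⟩
  · intro v hv
    refine h1 v ?_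
    rintro ⟨e, he, hev⟩
    exact hv e he hev

end Pool.Agent.Lib.MP_28691e_co
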