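import Pool.Agent.Lib.MP_28691e_co.Greedy

/-!
The case of a digraph in which every vertex has exactly three out-neighbours and exactly three
in-neighbours.
-/

namespace Pool.Agent.Lib.MP_28691e_co

open Finset

variable {V : Type*} [DecidableEq V]

/-- `h` is a hole of `B`: the rest of `B` splits into three acyclic classes by `f`. -/
def Config (N : V → Finset V) (B : Finset V) (h : V) (f : V → Fin 3) : Prop :=
  h ∈ B ∧ ∃ r : V → ℕ, Partit N (B.erase h) f r

/-- The standing assumptions for a contradiction. -/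
structure Bad (N : V → Finset V) (B : Finset V) : Prop where
  loopless : ∀ v, v ∉ N v
  sub : ∀ v ∈ B, N v ⊆ B
  out : ∀ v ∈ B, (N v).card = 3
  ins : ∀ v ∈ B, (B.filter (fun u => v ∈ N u)).card = 3
  nopart : ∀ f r, ¬ Partit N B f r
  nocol : ∀ c : V → Fin 3, ∃ v ∈ B, ¬ Sat N c v

variable {N : V → Finset V} {B : Finset V}

theorem Bad.P1 (hB : Bad N B) {h : V} {f : V → Fin 3} (hc : Config N B h f) {x x' : V}
    (hx : x ∈ N h) (hx' : x' ∈ N h) (hf : f x = f x') : x = x' := by
  by_contra hne
  obtain ⟨hh, r, hr⟩ := hc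
  obtain ⟨c, hc1, hc2⟩ := greedy N hB.loopless _ (B.erase h) rfl f r hr (fun _ => f x)
  obtain ⟨v, hv, hsat⟩ := hB.nocol c
  by_cases hvh : v = h
  · subst hvh
    apply hsat
    unfold Sat
    have hcv : c v = f x := hc1 v (notMem_erase _ _)
    have hmem : ∀ y ∈ N v, y ∈ B.erase v := fun y hy =>
      mem_erase.2 ⟨fun h => hB.loopless v (h ▸ hy), hB.sub v hv hy⟩
    have hsub : (N v).filter (fun u => c u = c v) ⊆ ((N v).erase x).erase x' := by
      intro u hu
      rw [mem_filter, hcv] at hu
      rw [mem_erase, mem_erase]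
      refine ⟨?_, ?_, hu.1⟩
      · rintro rfl
        exact (hc2 u (hmem u hu.1)).1 (hu.2.trans hf)
      · rintro rfl
        exact (hc2 u (hmem u hu.1)).1 hu.2
    have hcard := card_le_card hsub
    rw [card_erase_of_mem (mem_erase.2 ⟨Ne.symm hne, hx'⟩), card_erase_of_mem hx,
      hB.out v hv] at hcard
    rw [hB.out v hv]
    omega
  · exact hsat (hc2 v (mem_erase.2 ⟨hvh, hv⟩)).2

theorem exists_big (B : Finset V) (r : V → ℕ) : ∃ M, ∀ v ∈ B, r v < M :=
  ⟨B.sup r + 1, fun _ hv => Nat.lt_succ_of_le (le_sup (f := r) hv)⟩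

theorem Bad.P2exists (hB : Bad N B) {h : V} {f : V → Fin 3} (hc : Config N B h f) (i : Fin 3) :
    ∃ y ∈ B, h ∈ N y ∧ f y = i := by
  by_contra hcon
  push Not at hcon
  obtain ⟨hh, r, hr⟩ := hc
  obtain ⟨M, hM⟩ := exists_big B r
  refine hB.nopart (Function.update f h i) (Function.update r h M) ?_
  intro v hv u hu huB huv
  have hne : u ≠ v := fun e => hB.loopless v (e ▸ hu)
  by_cases hvh : v = h
  · subst hvh
    rw [Function.update_self, Function.update_of_ne hne]
    exact hM u huB
  · by_cases huh : u = h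
    · subst huh
      rw [Function.update_self, Function.update_of_ne hvh] at huv
      exact absurd huv.symm (hcon v hv hu)
    · rw [Function.update_of_ne huh, Function.update_of_ne hvh] at huv
      rw [Function.update_of_ne huh, Function.update_of_ne hvh]
      exact hr v (mem_erase.2 ⟨hvh, hv⟩) u hu (mem_erase.2 ⟨huh, huB⟩) huv

theorem Bad.P2 (hB : Bad N B) {h : V} {f : V → Fin 3} (hc : Config N B h f) {y y' : V}
    (hy : y ∈ B) (hyh : h ∈ N y) (hy' : y' ∈ B) (hyh' : h ∈ N y') (hf : f y = f y') : y = y' := by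
  have hsurj : (B.filter (fun u => h ∈ N u)).image f = univ := by
    rw [eq_univ_iff_forall]
    intro i
    obtain ⟨y, h1, h2, h3⟩ := hB.P2exists hc i
    exact mem_image.2 ⟨y, mem_filter.2 ⟨h1, h2⟩, h3⟩
  have hcard : ((B.filter (fun u => h ∈ N u)).image f).card =
      (B.filter (fun u => h ∈ N u)).card := by
    rw [hsurj, hB.ins h hc.1]; rfl
  exact (card_image_iff.1 hcard) (by simpa using ⟨hy, hyh⟩) (by simpa using ⟨hy', hyh'⟩) hf

theorem Bad.P1exists (hB : Bad N B) {h : V} {f : V → Fin 3} (hc : Config N B h f) (i : Fin 3) :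
    ∃ x ∈ N h, f x = i := by
  have hinj : Set.InjOn f (N h : Set V) := by
    intro x hx x' hx' hf
    exact hB.P1 hc hx hx' hf
  have hcard : ((N h).image f).card = 3 := by
    rw [card_image_of_injOn hinj, hB.out h hc.1]
  have huniv : (N h).image f = univ := by
    apply eq_univ_of_card
    rw [hcard]; rfl
  have : i ∈ (N h).image f := by rw [huniv]; exact mem_univ i
  obtain ⟨x, hx, hxi⟩ := mem_image.1 this
  exact ⟨x, hx, hxi⟩

/-- The hole moves to an out-neighbour. -/
theorem Bad.S1 (hB : Bad N B) {h : V} {f : V → Fin 3} (hc : Config N B h f) {x : V}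
    (hx : x ∈ N h) : Config N B x (Function.update f h (f x)) := by
  have hP1 := fun (u : V) (hu : u ∈ N h) => hB.P1 hc hu hx
  obtain ⟨hh, r, hr⟩ := hc
  refine ⟨hB.sub h hh hx, Function.update (fun v => r v + 1) h 0, ?_⟩
  intro v hv u hu huB huv
  have hne : u ≠ v := fun e => hB.loopless v (e ▸ hu)
  rw [mem_erase] at hv huB
  by_cases hvh : v = h
  · subst hvh
    rw [Function.update_self, Function.update_of_ne hne] at huv
    exact absurd (hP1 u hu huv) huB.1
  · by_cases huh : u = h
    · subst huh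
      rw [Function.update_self, Function.update_of_ne hvh]
      omega
    · rw [Function.update_of_ne huh, Function.update_of_ne hvh] at huv
      rw [Function.update_of_ne huh, Function.update_of_ne hvh]
      have := hr v (mem_erase.2 ⟨hvh, hv.2⟩) u hu (mem_erase.2 ⟨huh, huB.2⟩) huv
      omega

/-- The hole moves to an in-neighbour. -/
theorem Bad.S2 (hB : Bad N B) {h : V} {f : V → Fin 3} (hc : Config N B h f) {y : V}
    (hy : y ∈ B) (hyh : h ∈ N y) : Config N B y (Function.update f h (f y)) := by
  have hP2 := fun (u : V) (hu : u ∈ B) (hu' : h ∈ N u) => hB.P2 hc hu hu' hy hyh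
  obtain ⟨hh, r, hr⟩ := hc
  obtain ⟨M, hM⟩ := exists_big B r
  refine ⟨hy, Function.update r h M, ?_⟩
  intro v hv u hu huB huv
  have hne : u ≠ v := fun e => hB.loopless v (e ▸ hu)
  rw [mem_erase] at hv huB
  by_cases hvh : v = h
  · subst hvh
    rw [Function.update_self, Function.update_of_ne hne]
    exact hM u huB.2
  · by_cases huh : u = h
    · subst huh
      rw [Function.update_self, Function.update_of_ne hvh] at huv
      exact absurd (hP2 v hv.2 hu huv.symm) hv.1
    · rw [Function.update_of_ne huh, Function.update_of_ne hvh] at huv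
      rw [Function.update_of_ne huh, Function.update_of_ne hvh]
      exact hr v (mem_erase.2 ⟨hvh, hv.2⟩) u hu (mem_erase.2 ⟨huh, huB.2⟩) huv

/-- No vertex is both an in-neighbour and an out-neighbour of a hole. -/
theorem Bad.P3 (hB : Bad N B) {h : V} {f : V → Fin 3} (hc : Config N B h f) {x : V}
    (hx : x ∈ N h) (hxh : h ∈ N x) : False := by
  obtain ⟨a, k, hba, hbk, hak⟩ := exists_others (f x)
  have hcx := hB.S1 hc hx
  have hxB : x ∈ B := hcx.1
  obtain ⟨uk, huk, hfuk⟩ := hB.P1exists hcx k
  obtain ⟨ua, hua, hfua⟩ := hB.P1exists hc a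
  have hxne : x ≠ h := fun e => hB.loopless h (e ▸ hx)
  have hukh : uk ≠ h := by
    rintro rfl
    rw [Function.update_self] at hfuk
    exact hbk hfuk
  rw [Function.update_of_ne hukh] at hfuk
  have hukx : uk ≠ x := fun e => hB.loopless x (e ▸ huk)
  have hua_x : ua ≠ x := by
    rintro rfl
    exact hba hfua
  have huah : ua ≠ h := fun e => hB.loopless h (e ▸ hua)
  obtain ⟨hh, r, hr⟩ := hc
  have hP : Partit N ((B.erase h).erase x) f r := by
    intro v hv u hu huB huv
    exact hr v (mem_of_mem_erase hv) u hu (mem_of_mem_erase huB) huv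
  obtain ⟨c, hc1, hc2⟩ := greedy N hB.loopless _ _ rfl f r hP
    (fun v => if v = h then a else k)
  have hch : c h = a := by
    rw [hc1 h (by simp)]; simp
  have hcx' : c x = k := by
    rw [hc1 x (notMem_erase _ _)]; simp [hxne]
  obtain ⟨v, hv, hsat⟩ := hB.nocol c
  apply hsat
  by_cases hvh : v = h
  · subst hvh
    unfold Sat
    have hsub : (N v).filter (fun u => c u = c v) ⊆ ((N v).erase x).erase ua := by
      intro u hu
      rw [mem_filter, hch] at hu
      rw [mem_erase, mem_erase]
      refine ⟨?_, ?_, hu.1⟩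
      · rintro rfl
        refine (hc2 u ?_).1 (hu.2.trans hfua.symm)
        exact mem_erase.2 ⟨hua_x, mem_erase.2 ⟨huah, hB.sub v hv hua⟩⟩
      · rintro rfl
        exact hak (hu.2.symm.trans hcx')
    have hcard := card_le_card hsub
    rw [card_erase_of_mem (mem_erase.2 ⟨hua_x, hua⟩), card_erase_of_mem hx,
      hB.out v hv] at hcard
    rw [hB.out v hv]
    omega
  · by_cases hvx : v = x
    · subst hvx
      unfold Sat
      have hsub : (N v).filter (fun u => c u = c v) ⊆ ((N v).erase h).erase uk := by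
        intro u hu
        rw [mem_filter, hcx'] at hu
        rw [mem_erase, mem_erase]
        refine ⟨?_, ?_, hu.1⟩
        · rintro rfl
          refine (hc2 u ?_).1 (hu.2.trans hfuk.symm)
          exact mem_erase.2 ⟨hukx, mem_erase.2 ⟨hukh, hB.sub v hv huk⟩⟩
        · rintro rfl
          exact hak (hch.symm.trans hu.2)
      have hcard := card_le_card hsub
      rw [card_erase_of_mem (mem_erase.2 ⟨hukh, huk⟩), card_erase_of_mem hxh,
        hB.out v hv] at hcard
      rw [hB.out v hv]
      omega
    · exact (hc2 v (mem_erase.2 ⟨hvx, mem_erase.2 ⟨hvh, hv⟩⟩)).2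

/-- Adjacency in either direction. -/
def Nbr (N : V → Finset V) (u v : V) : Prop := u ∈ N v ∨ v ∈ N u

theorem Bad.S (hB : Bad N B) {h : V} {f : V → Fin 3} (hc : Config N B h f) {x : V}
    (hxB : x ∈ B) (hx : Nbr N h x) : Config N B x (Function.update f h (f x)) := by
  rcases hx with hx | hx
  · exact hB.S2 hc hxB hx
  · exact hB.S1 hc hx

end Pool.Agent.Lib.MP_28691e_co
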